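import Pool.Agent.H79.DO.Stmts

/-!
# Project DO, module CPL: completeness for general types
-/

set_option autoImplicit false

namespace Pool.Agent.H41.DO

open Pool.Agent.H79.DO Pool.Agent.H83 Matrix

lemma XV_le {S L : Type} [Fintype S] (N : L → S → S → ℕ) (C : ℕ)
    (h : ∀ l s, ∑ t, N l s t ≤ C) (u : List L) : ∀ s, XV N u s ≤ C ^ u.length := by
  induction u with
  | nil => intro s; simp [XV]
  | cons l u ih =>
    intro s
    calc XV N (l :: u) s = ∑ t, N l s t * XV N u t := rfl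
      _ ≤ ∑ t, N l s t * C ^ u.length :=
          Finset.sum_le_sum fun t _ => Nat.mul_le_mul_left _ (ih t)
      _ = (∑ t, N l s t) * C ^ u.length := by rw [Finset.sum_mul]
      _ ≤ C * C ^ u.length := Nat.mul_le_mul_right _ (h l s)
      _ = C ^ (l :: u).length := by rw [List.length_cons, pow_succ']

theorem cpl (h1 : SEP) (h2 : COMB) (h3 : BAS) (h4 : MAT) : CPL := by
  intro S A L _ _ _ _ _ _ _ M μ ν hμ hν σ hd w W P D hw hP
  obtain ⟨hmat, hspan⟩ := h4 S A L M w W σ P D hw hP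
  set N := NG w P with hN
  have hT := M.isChain σ
  have hWD : (0 : ℝ) < (W : ℝ) * D := mul_pos (by exact_mod_cast hw.pos) (by exact_mod_cast hP.pos)
  have hsum : ∀ l s, ∑ t, N l s t ≤ W * D := by
    intro l s
    have e1 : ∑ t, M.mat σ l s t ≤ 1 := by
      rw [← hT.sum_one s]
      exact Finset.single_le_sum (f := fun l => ∑ t, M.mat σ l s t)
        (fun l' _ => Finset.sum_nonneg fun t _ => hT.nonneg l' s t) (Finset.mem_univ l)
    have e2 : ∑ t, M.mat σ l s t = (∑ t, (N l s t : ℝ)) / (W * D) := by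
      rw [Finset.sum_div]
      exact Finset.sum_congr rfl fun t _ => hmat l s t
    rw [e2, div_le_one hWD] at e1
    exact_mod_cast e1
  refine ⟨hsum, fun s t => ∃ u : List L, 0 < act (M.mat σ) u μ s ∧ 0 < act (M.mat σ) u ν t, ?_, ?_, ?_⟩
  · intro s t hs ht
    exact ⟨[], hs, ht⟩
  · rintro s t ⟨u, hu1, hu2⟩ l s' t' hs' ht'
    have key : ∀ (α : S → ℝ), (∀ x, 0 ≤ α x) → ∀ x y, 0 < act (M.mat σ) u α x → 0 < N l x y →
        0 < act (M.mat σ) (u ++ [l]) α y := by
      intro α hα x y hx hxy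
      rw [act_append]
      show 0 < ∑ z, act (M.mat σ) u α z * M.mat σ l z y
      have hz : ∀ z, 0 ≤ act (M.mat σ) u α z * M.mat σ l z y := fun z =>
        mul_nonneg (act_nonneg hT.nonneg u hα z) (hT.nonneg l z y)
      refine lt_of_lt_of_le ?_ (Finset.single_le_sum (f := fun z =>
        act (M.mat σ) u α z * M.mat σ l z y) (fun z _ => hz z) (Finset.mem_univ x))
      refine mul_pos hx ?_
      rw [hmat]
      exact div_pos (by exact_mod_cast hxy) hWD
    exact ⟨u ++ [l], key μ hμ.nonneg s s' hu1 hs', key ν hν.nonneg t t' hu2 ht'⟩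
  · obtain ⟨r, u, hr, hlen, hli, hsp⟩ := h3 S L N
    refine ⟨r, u, hr, hlen, fun s => ?_⟩
    obtain ⟨v, hv, hv0, hvs, hvR⟩ := h1 S L (M.mat σ) hT μ ν hμ.nonneg hν.nonneg
      (ov_of_tvDist_eq_one M σ hμ hν hd) s
    rw [hspan, hsp] at hv
    have hB1 : 1 ≤ (W * D) ^ Fintype.card S := Nat.one_le_pow _ _ (Nat.mul_pos hw.pos hP.pos)
    obtain ⟨c, hc1, hc2, hc3, hc4⟩ := h2 (Fin r) S (fun i s => XV N (u i) s) ((W * D) ^ Fintype.card S)
      hB1 (fun i s => (XV_le N _ hsum (u i) s).trans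
        (Nat.pow_le_pow_right (Nat.mul_pos hw.pos hP.pos) (hlen i))) hli v hv hv0 s hvs
    refine ⟨c, ?_, hc2, hc3, fun t ht => hc4 t (hvR t ht)⟩
    intro i
    have := hc1 i
    push_cast at this
    exact this

end Pool.Agent.H41.DO
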