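import Pool.Agent.H79.DO.Stmts

/-!
# Project DO, module CTAB: certificates with small numbers are small
-/

set_option autoImplicit false

namespace Pool.Agent.H41.DO

open Pool.Agent.H79.DO TMLib Polynomial
open Pool.Agent.H74.PPAD (num bits num_bits_of_lt length_bits sz_bits_le')

/-- A table. -/
def tab {α : Type} (n : ℕ) (f : ℕ → α) : List α := (List.range n).map f

lemma tab_getD {α : Type} (n : ℕ) (f : ℕ → α) (i : ℕ) (d : α) :
    (tab n f).getD i d = if i < n then f i else d := by
  unfold tab
  split_ifs with h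
  · simp [List.getD_eq_getElem?_getD, h]
  · simp [List.getD_eq_getElem?_getD, h]

lemma sz_tab {α : Type} [Enc α] (n N K : ℕ) (f : ℕ → α) (hn : n ≤ N) (h : ∀ i, sz (f i) ≤ K) :
    sz (tab n f) ≤ 1 + N * (1 + K) := by
  apply sz_list_le
  · simpa [tab] using hn
  · intro a ha
    obtain ⟨i, _, rfl⟩ := List.mem_map.1 ha
    exact h i

lemma rd1 (n q : ℕ) (f : ℕ → ℕ) (h : ∀ i, f i < 2 ^ q) (h0 : ∀ i, ¬ i < n → f i = 0) (i : ℕ) :
    num ((tab n fun i => bits q (f i)).getD i []) = f i := by
  rw [tab_getD]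
  split_ifs with h1
  · exact num_bits_of_lt (h i)
  · exact (h0 i h1).symm

lemma rd2 (n m q : ℕ) (f : ℕ → ℕ → ℕ) (h : ∀ i j, f i j < 2 ^ q)
    (h0 : ∀ i j, ¬ (i < n ∧ j < m) → f i j = 0) (i j : ℕ) :
    num (((tab n fun i => tab m fun j => bits q (f i j)).getD i []).getD j []) = f i j := by
  rw [tab_getD]
  split_ifs with h1
  · exact rd1 m q (f i) (h i) (fun j hj => h0 i j fun h => hj h.2) j
  · exact (h0 i j fun h => h1 h.1).symm

lemma rd3 (n m k q : ℕ) (f : ℕ → ℕ → ℕ → ℕ) (h : ∀ i j l, f i j l < 2 ^ q)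
    (h0 : ∀ i j l, ¬ (i < n ∧ j < m ∧ l < k) → f i j l = 0) (i j l : ℕ) :
    num ((((tab n fun i => tab m fun j => tab k fun l => bits q (f i j l)).getD i []).getD j []).getD
      l []) = f i j l := by
  rw [tab_getD]
  split_ifs with h1
  · exact rd2 m k q (f i) (h i) (fun j l hj => h0 i j l fun h => hj h.2) j l
  · exact (h0 i j l fun h => h1 h.1).symm

lemma rd4 (n m k r q : ℕ) (f : ℕ → ℕ → ℕ → ℕ → ℕ) (h : ∀ i j l t, f i j l t < 2 ^ q)
    (h0 : ∀ i j l t, ¬ (i < n ∧ j < m ∧ l < k ∧ t < r) → f i j l t = 0) (i j l t : ℕ) :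
    num (((((tab n fun i => tab m fun j => tab k fun l => tab r fun t =>
      bits q (f i j l t)).getD i []).getD j []).getD l []).getD t []) = f i j l t := by
  rw [tab_getD]
  split_ifs with h1
  · exact rd3 m k r q (f i) (h i) (fun j l t hj => h0 i j l t fun h => hj h.2) j l t
  · exact (h0 i j l t fun h => h1 h.1).symm

/-- Bounds for the sizes of the tables of depth `d`. -/
def SS (N : ℕ) : ℕ → ℕ
  | 0 => 1 + 4 * N
  | d + 1 => 1 + N * (1 + SS N d)

/-- The same as polynomials. -/
noncomputable def PP : ℕ → ℕ[X]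
  | 0 => 1 + 4 * (X + 1)
  | d + 1 => 1 + (X + 1) * (1 + PP d)

lemma eval_PP (x d : ℕ) : (PP d).eval x = SS (x + 1) d := by
  induction d with
  | zero => simp [PP, SS]
  | succ d ih => simp [PP, SS, ih]

lemma SS_mono (N d : ℕ) (hN : 1 ≤ N) : SS N d ≤ SS N (d + 1) := by
  show SS N d ≤ 1 + N * (1 + SS N d)
  nlinarith [Nat.zero_le (SS N d)]

/-- The table of a certificate. -/
def mkC (c : NCert) (n m k q : ℕ) : CT :=
  ((tab n fun s => tab m fun a => bits q (c.w s a), bits q c.W, bits q c.D),
    (tab n fun s => tab m fun a => tab k fun l => tab n fun t => bits q (c.P s a l t)),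
    ((tab n fun s => bits q (c.G s)), bits q c.Gd), ((tab n fun s => bits q (c.H s)), bits q c.Hd),
    (tab n fun s => tab n fun t => c.R s t),
    ((tab n fun i => c.len i), (tab n fun i => tab n fun j => c.lab i j)),
    (tab n fun i => tab (n + 1) fun j => tab n fun t => bits q (c.X i j t)),
    (tab n fun s => tab n fun i => bits q (c.cp s i)),
    (tab n fun s => tab n fun i => bits q (c.cq s i)))

theorem ctab : CTAB := by
  refine ⟨30 + 20 * PP 4, fun c n m k q hc => ⟨mkC c n m k q, ?_, ?_⟩⟩
  · -- the size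
    have hP : (30 + 20 * PP 4 : ℕ[X]).eval (n + m + k + q) = 30 + 20 * SS (n + m + k + q + 1) 4 := by
      simp [eval_PP]
    rw [hP]
    set N := n + m + k + q + 1 with hN
    have m0 := SS_mono N 0 (by omega)
    have m1 := SS_mono N 1 (by omega)
    have m2 := SS_mono N 2 (by omega)
    have m3 := SS_mono N 3 (by omega)
    have hb : ∀ x, sz (bits q x) ≤ SS N 0 := by
      intro x
      refine (sz_bits_le' _).trans ?_
      rw [length_bits]
      show 1 + 4 * q ≤ 1 + 4 * N
      omega
    have hbo : ∀ b : Bool, sz b ≤ SS N 0 := by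
      intro b
      refine (sz_bool_le b).trans ?_
      show 3 ≤ 1 + 4 * N
      omega
    have s1 : ∀ {α : Type} [Enc α] (r d : ℕ) (f : ℕ → α), r ≤ n + 1 ∨ r ≤ m ∨ r ≤ k →
        (∀ i, sz (f i) ≤ SS N d) → sz (tab r f) ≤ SS N (d + 1) := by
      intro α _ r d f hr h
      exact sz_tab r N _ f (by omega) h
    have ew : sz (tab n fun s => tab m fun a => bits q (c.w s a)) ≤ SS N 2 :=
      s1 n 1 _ (by omega) fun s => s1 m 0 _ (by omega) fun a => hb _
    have eP : sz (tab n fun s => tab m fun a => tab k fun l => tab n fun t => bits q (c.P s a l t)) ≤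
        SS N 4 :=
      s1 n 3 _ (by omega) fun s => s1 m 2 _ (by omega) fun a => s1 k 1 _ (by omega) fun l =>
        s1 n 0 _ (by omega) fun t => hb _
    have eG : sz (tab n fun s => bits q (c.G s)) ≤ SS N 1 := s1 n 0 _ (by omega) fun s => hb _
    have eH : sz (tab n fun s => bits q (c.H s)) ≤ SS N 1 := s1 n 0 _ (by omega) fun s => hb _
    have eR : sz (tab n fun s => tab n fun t => c.R s t) ≤ SS N 2 :=
      s1 n 1 _ (by omega) fun s => s1 n 0 _ (by omega) fun a => hbo _
    have el : sz (tab n fun i => c.len i) ≤ SS N 1 := s1 n 0 _ (by omega) fun s => by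
      rw [sz_nat]
      have := hc.len s
      show 2 * c.len s + 1 ≤ 1 + 4 * N
      omega
    have ela : sz (tab n fun i => tab n fun j => c.lab i j) ≤ SS N 2 :=
      s1 n 1 _ (by omega) fun s => s1 n 0 _ (by omega) fun a => by
        rw [sz_nat]
        have := hc.lab s a
        show 2 * c.lab s a + 1 ≤ 1 + 4 * N
        omega
    have eX : sz (tab n fun i => tab (n + 1) fun j => tab n fun t => bits q (c.X i j t)) ≤ SS N 3 :=
      s1 n 2 _ (by omega) fun s => s1 (n + 1) 1 _ (by omega) fun a => s1 n 0 _ (by omega) fun l => hb _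
    have ecp : sz (tab n fun s => tab n fun i => bits q (c.cp s i)) ≤ SS N 2 :=
      s1 n 1 _ (by omega) fun s => s1 n 0 _ (by omega) fun a => hb _
    have ecq : sz (tab n fun s => tab n fun i => bits q (c.cq s i)) ≤ SS N 2 :=
      s1 n 1 _ (by omega) fun s => s1 n 0 _ (by omega) fun a => hb _
    have h1 := hb c.W
    have h2 := hb c.D
    have h3 := hb c.Gd
    have h4 := hb c.Hd
    simp only [mkC, sz_pair]
    simp only [Nat.reduceAdd] at m0 m1 m2 m3
    omega
  · -- reading
    have e : ∀ c' : NCert, c'.w = c.w → c'.W = c.W → c'.D = c.D → c'.P = c.P → c'.G = c.G →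
        c'.Gd = c.Gd → c'.H = c.H → c'.Hd = c.Hd → c'.R = c.R → c'.len = c.len → c'.lab = c.lab →
        c'.X = c.X → c'.cp = c.cp → c'.cq = c.cq → c' = c := by
      intro c' h1 h2 h3 h4 h5 h6 h7 h8 h9 h10 h11 h12 h13 h14
      cases c
      cases c'
      simp only at *
      subst h1 h2 h3 h4 h5 h6 h7 h8 h9 h10 h11 h12 h13 h14
      rfl
    apply e
    · funext s a
      exact rd2 n m q c.w hc.w hc.w' s a
    · exact num_bits_of_lt hc.W
    · exact num_bits_of_lt hc.D
    · funext s a l t
      exact rd4 n m k n q c.P hc.P hc.P' s a l t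
    · funext s
      exact rd1 n q c.G hc.G hc.G' s
    · exact num_bits_of_lt hc.Gd
    · funext s
      exact rd1 n q c.H hc.H hc.H' s
    · exact num_bits_of_lt hc.Hd
    · funext s t
      show ((tab n fun s => tab n fun t => c.R s t).getD s []).getD t false = c.R s t
      rw [tab_getD]
      split_ifs with h1
      · rw [tab_getD]
        split_ifs with h2
        · rfl
        · exact (hc.R' s t fun h => h2 h.2).symm
      · exact (hc.R' s t fun h => h1 h.1).symm
    · funext i
      show (tab n fun i => c.len i).getD i 0 = c.len i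
      rw [tab_getD]
      split_ifs with h1
      · rfl
      · exact (hc.len' i h1).symm
    · funext s t
      show ((tab n fun s => tab n fun t => c.lab s t).getD s []).getD t 0 = c.lab s t
      rw [tab_getD]
      split_ifs with h1
      · rw [tab_getD]
        split_ifs with h2
        · rfl
        · exact (hc.lab' s t fun h => h2 h.2).symm
      · exact (hc.lab' s t fun h => h1 h.1).symm
    · funext i j t
      exact rd3 n (n + 1) n q c.X hc.X hc.X' i j t
    · funext s i
      exact rd2 n n q c.cp hc.cp hc.cp' s i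
    · funext s i
      exact rd2 n n q c.cq hc.cq hc.cq' s i

end Pool.Agent.H41.DO
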